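import Pool.Agent.W70.HR.Stm

/-!
# Moments of the number of rough positions (task `S_RM` of the project HR)
-/

set_option autoImplicit false

open Finset

namespace Pool.Agent.W978.HR

open Pool.Agent.H361R2.PP Pool.Agent.W70.HR

theorem pow_card_le (R : Finset ℕ) (m : ℕ) :
    R.card ^ m ≤ m ^ m * (R.powerset.filter (fun U => U.card ≤ m)).card := by
  classical
  have h1 : R.card ^ m = (Fintype.piFinset (fun _ : Fin m => R)).card := by
    simp [Fintype.card_piFinset]
  rw [h1]
  refine Finset.card_le_mul_card_image_of_maps_to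
    (f := fun f : Fin m → ℕ => (univ : Finset (Fin m)).image f) ?_ _ ?_
  · intro f hf
    rw [Fintype.mem_piFinset] at hf
    rw [mem_filter, mem_powerset]
    refine ⟨?_, ?_⟩
    · intro a ha
      obtain ⟨i, -, rfl⟩ := mem_image.1 ha
      exact hf i
    · exact card_image_le.trans (by simp)
  · intro U hU
    rw [mem_filter, mem_powerset] at hU
    have h2 : (Fintype.piFinset (fun _ : Fin m => R)).filter
        (fun f : Fin m → ℕ => (univ : Finset (Fin m)).image f = U) ⊆
        Fintype.piFinset (fun _ : Fin m => U) := by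
      intro f hf
      rw [mem_filter] at hf
      rw [Fintype.mem_piFinset]
      intro i
      rw [← hf.2]
      exact mem_image_of_mem f (mem_univ i)
    refine (card_le_card h2).trans ?_
    rw [Fintype.card_piFinset]
    simp only [prod_const, card_univ, Fintype.card_fin]
    exact Nat.pow_le_pow_left hU.2 m

theorem rg_01 (P : Finset ℕ) (a n : ℕ) : rg P a n = 0 ∨ rg P a n = 1 := by
  classical
  unfold rg
  split_ifs
  · exact Or.inr rfl
  · exact Or.inl rfl

theorem sum_rg_pow (B : Finset ℕ) (δ : ℝ) (X m n : ℕ) :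
    (∑ a ∈ B, rg (P1 (HH X) (JJ δ X)) a n) ^ m ≤
      (m : ℝ) ^ m * ∑ U ∈ B.powerset.filter (fun U => U.card ≤ m), rU δ X U n := by
  classical
  set R := B.filter (fun a => rg (P1 (HH X) (JJ δ X)) a n = 1) with hR
  have h1 : ∑ a ∈ B, rg (P1 (HH X) (JJ δ X)) a n = (R.card : ℝ) := by
    rw [hR, card_filter]
    push_cast
    refine sum_congr rfl fun a _ => ?_
    rcases rg_01 (P1 (HH X) (JJ δ X)) a n with h | h
    · rw [h, if_neg (by norm_num)]
    · rw [h, if_pos rfl]
  have hU0 : ∀ U, 0 ≤ rU δ X U n := by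
    intro U
    unfold rU
    refine prod_nonneg fun a _ => ?_
    rcases rg_01 (P1 (HH X) (JJ δ X)) a n with h | h <;> rw [h] <;> norm_num
  have h2 : ((R.powerset.filter (fun U => U.card ≤ m)).card : ℝ) ≤
      ∑ U ∈ B.powerset.filter (fun U => U.card ≤ m), rU δ X U n := by
    have h3 : ((R.powerset.filter (fun U => U.card ≤ m)).card : ℝ) =
        ∑ U ∈ R.powerset.filter (fun U => U.card ≤ m), rU δ X U n := by
      rw [card_eq_sum_ones]
      push_cast
      refine sum_congr rfl fun U hU => ?_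
      rw [mem_filter, mem_powerset] at hU
      unfold rU
      symm
      refine prod_eq_one fun a ha => ?_
      exact (mem_filter.1 (hU.1 ha)).2
    rw [h3]
    refine sum_le_sum_of_subset_of_nonneg ?_ fun U _ _ => hU0 U
    intro U hU
    rw [mem_filter, mem_powerset] at hU ⊢
    exact ⟨hU.1.trans (filter_subset _ _), hU.2⟩
  rw [h1]
  have h4 : ((R.card : ℝ)) ^ m ≤
      (m : ℝ) ^ m * ((R.powerset.filter (fun U => U.card ≤ m)).card : ℝ) := by
    exact_mod_cast pow_card_le R m
  exact h4.trans (by gcongr)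

theorem sum_pow_card (B : Finset ℕ) (m : ℕ) (x D : ℝ) (hx : 0 ≤ x) (hD : 1 ≤ D)
    (h : (B.card : ℝ) * x ≤ D) :
    ∑ U ∈ B.powerset.filter (fun U => U.card ≤ m), x ^ U.card ≤ (m + 1) * D ^ m := by
  classical
  have h1 : ∑ U ∈ B.powerset.filter (fun U => U.card ≤ m), x ^ U.card =
      ∑ j ∈ range (m + 1), ∑ U ∈ (B.powerset.filter (fun U => U.card ≤ m)).filter
        (fun U => U.card = j), x ^ U.card := by
    symm
    refine sum_fiberwise_of_maps_to ?_ _
    intro U hU
    rw [mem_filter] at hU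
    rw [mem_range]
    omega
  rw [h1]
  have h2 : ∀ j ∈ range (m + 1), ∑ U ∈ (B.powerset.filter (fun U => U.card ≤ m)).filter
        (fun U => U.card = j), x ^ U.card ≤ D ^ m := by
    intro j hj
    rw [mem_range] at hj
    calc ∑ U ∈ (B.powerset.filter (fun U => U.card ≤ m)).filter (fun U => U.card = j), x ^ U.card
        ≤ ∑ U ∈ B.powersetCard j, x ^ j := by
          have h3 : ∑ U ∈ (B.powerset.filter (fun U => U.card ≤ m)).filter
              (fun U => U.card = j), x ^ U.card =
              ∑ U ∈ (B.powerset.filter (fun U => U.card ≤ m)).filter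
              (fun U => U.card = j), x ^ j := by
            refine sum_congr rfl fun U hU => ?_
            rw [(mem_filter.1 hU).2]
          rw [h3]
          refine sum_le_sum_of_subset_of_nonneg ?_ fun U _ _ => by positivity
          intro U hU
          rw [mem_filter, mem_filter, mem_powerset] at hU
          exact mem_powersetCard.2 ⟨hU.1.1, hU.2⟩
      _ = (B.card.choose j : ℝ) * x ^ j := by
          rw [sum_const, card_powersetCard, nsmul_eq_mul]
      _ ≤ (B.card : ℝ) ^ j * x ^ j := by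
          gcongr
          exact_mod_cast Nat.choose_le_pow B.card j
      _ = ((B.card : ℝ) * x) ^ j := by rw [mul_pow]
      _ ≤ D ^ j := by gcongr
      _ ≤ D ^ m := pow_le_pow_right₀ hD (by omega)
  calc _ ≤ ∑ j ∈ range (m + 1), D ^ m := sum_le_sum h2
    _ = (m + 1) * D ^ m := by
        rw [sum_const, card_range, nsmul_eq_mul]
        push_cast
        ring

theorem rm (hCnt : Cnt) (hMer : Mer) (_hW : Wtx) : S_RM := by
  classical
  intro m Λ δ hΛ hδ hδ8
  obtain ⟨X1, h1⟩ := hCnt 1 Λ Λ one_pos hΛ hΛ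
  obtain ⟨CM, hCM, h2⟩ := hMer
  obtain ⟨X2, h2⟩ := h2 δ hδ (by linarith)
  set D : ℝ := max 1 (2 * Λ * CM / δ) with hD
  have hD1 : 1 ≤ D := le_max_left _ _
  refine ⟨(m : ℝ) ^ m * (2 * ((m + 1) * D ^ m)) + 1, max (max X1 X2) 3, by positivity, ?_⟩
  intro X hX b hb hU
  have hX1 : X1 ≤ X := (le_max_left _ _).trans ((le_max_left _ _).trans hX)
  have hX2 : X2 ≤ X := (le_max_right _ _).trans ((le_max_left _ _).trans hX)
  have hX3 : 3 ≤ X := (le_max_right _ _).trans hX
  have hL : 0 < Real.log X := Real.log_pos (by exact_mod_cast (by omega : 1 < X))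
  obtain ⟨hV0, hV1, -⟩ := h2 X hX2
  set V : ℝ := VV δ X with hV
  have hV0' : 0 < V := hV0
  have hV1' : V * ((Nat.totient (Wm X) : ℝ) / Wm X) * (δ * Real.log X) ≤ CM := hV1
  set f : ℝ := (Nat.totient (Wm X) : ℝ) / Wm X with hf
  have hf0 : 0 ≤ f := by positivity
  have hcard : ((Bw Λ X b).card : ℝ) ≤ 2 * (Λ * Real.log X * f) := by
    have h3 := h1 X hX1 b 0 (Λ * Real.log X) le_rfl (by linarith) le_rfl
    have h4 : (BB X b ⌊Λ * Real.log X⌋₊).filter
        (fun a : ℕ => (0 : ℝ) < a ∧ (a : ℝ) ≤ Λ * Real.log X) = Bw Λ X b := by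
      unfold Bw
      refine filter_true_of_mem fun a ha => ?_
      unfold BB at ha
      rw [mem_filter, mem_Icc] at ha
      refine ⟨by exact_mod_cast ha.1.1, ?_⟩
      exact (Nat.cast_le.2 ha.1.2).trans (Nat.floor_le (by positivity))
    rw [h4] at h3
    have h5 := (abs_le.1 h3).2
    linarith
  have hBV : ((Bw Λ X b).card : ℝ) * V ≤ D := by
    refine le_trans ?_ (le_max_right _ _)
    rw [le_div_iff₀ hδ]
    calc ((Bw Λ X b).card : ℝ) * V * δ ≤ 2 * (Λ * Real.log X * f) * V * δ := by gcongr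
      _ = 2 * Λ * (V * f * (δ * Real.log X)) := by ring
      _ ≤ 2 * Λ * CM := by gcongr
  have hXW : 0 ≤ (X : ℝ) / Wm X := by positivity
  have hS : ∑ U ∈ (Bw Λ X b).powerset.filter (fun U => U.card ≤ m), ∑ n ∈ SI X b, rU δ X U n ≤
      2 * ((X : ℝ) / Wm X) * ((m + 1) * D ^ m) := by
    calc ∑ U ∈ (Bw Λ X b).powerset.filter (fun U => U.card ≤ m), ∑ n ∈ SI X b, rU δ X U n
        ≤ ∑ U ∈ (Bw Λ X b).powerset.filter (fun U => U.card ≤ m), 2 * Om δ X U.card := by
          refine sum_le_sum fun U hU' => ?_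
          rw [mem_filter, mem_powerset] at hU'
          exact hU U hU'.1 hU'.2
      _ = 2 * ((X : ℝ) / Wm X) *
            ∑ U ∈ (Bw Λ X b).powerset.filter (fun U => U.card ≤ m), V ^ U.card := by
          rw [mul_sum]
          refine sum_congr rfl fun U _ => ?_
          unfold Om
          rw [← hV]
          ring
      _ ≤ 2 * ((X : ℝ) / Wm X) * ((m + 1) * D ^ m) := by
          refine mul_le_mul_of_nonneg_left ?_ (by positivity)
          exact sum_pow_card _ m V D hV0'.le hD1 hBV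
  calc ∑ n ∈ SI X b, (∑ a ∈ Bw Λ X b, rg (P1 (HH X) (JJ δ X)) a n) ^ m
      ≤ ∑ n ∈ SI X b, (m : ℝ) ^ m *
          ∑ U ∈ (Bw Λ X b).powerset.filter (fun U => U.card ≤ m), rU δ X U n :=
        sum_le_sum fun n _ => sum_rg_pow _ δ X m n
    _ = (m : ℝ) ^ m * ∑ U ∈ (Bw Λ X b).powerset.filter (fun U => U.card ≤ m),
          ∑ n ∈ SI X b, rU δ X U n := by
        rw [← mul_sum, sum_comm]
    _ ≤ (m : ℝ) ^ m * (2 * ((X : ℝ) / Wm X) * ((m + 1) * D ^ m)) := by gcongr
    _ = (m : ℝ) ^ m * (2 * ((m + 1) * D ^ m)) * ((X : ℝ) / Wm X) := by ring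
    _ ≤ ((m : ℝ) ^ m * (2 * ((m + 1) * D ^ m)) + 1) * ((X : ℝ) / Wm X) := by
        gcongr
        linarith

end Pool.Agent.W978.HR
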